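import Pool.Agent.helper4.SR.CharThree
import Pool.Agent.helper4.SR.Step

/-!
# MP_3a9bc7_al: nilpotent length of soluble simply reducible groups

Every finite soluble simply reducible group has nilpotent length at most `4`; in particular at
most `5`, which answers Q1 in the affirmative.
-/

namespace Pool.Agent.Results.MP_3a9bc7_al.NilpotentLength

open Pool.Agent.helper4.SR Pool.Agent.helper4.Amza

/-- A (finite) group is *simply reducible* if every element is conjugate to its inverse and, for
any irreducible finite dimensional complex representations `ρ`, `σ`, `τ`, the multiplicity of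
`τ` in `ρ ⊗ σ`, i.e. the dimension of the space of intertwining maps from `τ` to `ρ ⊗ σ`, is at
most one. -/
structure IsSimplyReducible (G : Type) [Group G] : Prop where
  /-- every element is conjugate to its inverse -/
  conj_inv : ∀ g : G, IsConj g g⁻¹
  /-- multiplicities in tensor products of irreducible representations are at most one -/
  mult_le_one : ∀ (V W U : Type) [AddCommGroup V] [Module ℂ V] [FiniteDimensional ℂ V]
    [AddCommGroup W] [Module ℂ W] [FiniteDimensional ℂ W]
    [AddCommGroup U] [Module ℂ U] [FiniteDimensional ℂ U]
    (ρ : Representation ℂ G V) (σ : Representation ℂ G W) (τ : Representation ℂ G U),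
    ρ.IsIrreducible → σ.IsIrreducible → τ.IsIrreducible →
    Module.finrank ℂ (Representation.IntertwiningMap τ (ρ.tprod σ)) ≤ 1

/-- A chain of normal subgroups `1 = G_0 ≤ G_1 ≤ ... ≤ G_n = G` of `G` with every quotient
`G_{i + 1} / G_i` nilpotent. -/
structure NilpotentSeries (G : Type) [Group G] (n : ℕ) where
  /-- the terms of the chain (only the indices `0, ..., n` matter) -/
  term : ℕ → Subgroup G
  /-- all terms are normal in `G` -/
  normal : ∀ i, (term i).Normal
  /-- the chain starts at the trivial subgroup -/
  bot : term 0 = ⊥
  /-- the chain ends at the whole group -/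
  top : term n = ⊤
  /-- the chain is ascending -/
  le_succ : ∀ i < n, term i ≤ term (i + 1)
  /-- the quotients are nilpotent -/
  nilpotent : ∀ i < n, haveI := normal i
    Group.IsNilpotent (term (i + 1) ⧸ (term i).subgroupOf (term (i + 1)))

/-- The nilpotent length (Fitting height): the least `n` for which there is a chain of normal
subgroups of length `n` with nilpotent quotients. -/
noncomputable def nilpotentLength (G : Type) [Group G] : ℕ :=
  sInf {n | Nonempty (NilpotentSeries G n)}

theorem inv2_of_isSimplyReducible {G : Type} [Group G] [Finite G] (hG : IsSimplyReducible G) :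
    Inv2 G := by
  have := Fintype.ofFinite G
  refine inv2_of_chars hG.conj_inv ?_
  intro χ hχ ψ hψ ω hω
  have hωr := irr_inv hG.conj_inv hω
  obtain ⟨V, _, _, _, ρ, hρ, rfl⟩ := hχ
  obtain ⟨W, _, _, _, σ, hσ, rfl⟩ := hψ
  obtain ⟨U, _, _, _, τ, hτ, rfl⟩ := hω
  have h1 := Representation.card_inv_mul_sum_char_mul_char_eq_finrank τ (ρ.tprod σ)
  have h2 := hG.mult_le_one V W U ρ σ τ hρ hσ hτ
  have h3 : ∑ g : G, ρ.character g * σ.character g * τ.character g
      = (Nat.card G : ℂ) * (Module.finrank ℂ (Representation.IntertwiningMap τ (ρ.tprod σ)) : ℂ) := by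
    rw [← h1, ← mul_assoc, mul_inv_cancel₀ card_ne_zero', one_mul]
    refine Finset.sum_congr rfl fun g _ => ?_
    rw [Representation.char_tensor, Pi.mul_apply, hωr]
  rw [h3]
  have h4 : Module.finrank ℂ (Representation.IntertwiningMap τ (ρ.tprod σ)) = 0 ∨
      Module.finrank ℂ (Representation.IntertwiningMap τ (ρ.tprod σ)) = 1 := by omega
  rcases h4 with h | h
  · left; rw [h]; simp
  · right; rw [h]; simp

lemma nilpotent_quotient {G : Type} [Group G] [Finite G] {K L : Subgroup G} (hK : K.Normal)
    (h : K = res L) : Group.IsNilpotent (L ⧸ K.subgroupOf L) := by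
  subst h
  exact (quotient_res_nilpotent L).2 _

/-- Every finite soluble simply reducible group `G` has a chain `1 = G_0 ≤ ... ≤ G_4 = G` of
normal subgroups with nilpotent quotients; its nilpotent length is at most `4`. -/
theorem result (G : Type) [Group G] [Finite G] (hs : Group.IsSolvable G)
    (hG : IsSimplyReducible G) :
    Nonempty (NilpotentSeries G 4) ∧ nilpotentLength G ≤ 4 := by
  have h : Nonempty (NilpotentSeries G 4) :=
    ⟨{ term := fun i => D G (4 - i)
       normal := fun i => D_normal _
       bot := D_four (inv2_of_isSimplyReducible hG)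
       top := rfl
       le_succ := fun i _ => D_antitone (by omega)
       nilpotent := fun i hi => by
        refine nilpotent_quotient (D_normal _) ?_
        rw [← D_succ]
        congr 1
        omega }⟩
  exact ⟨h, Nat.sInf_le h⟩

end Pool.Agent.Results.MP_3a9bc7_al.NilpotentLength
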